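import Mathlib

/-! The algebra of the tree values. -/

namespace Pool.Agent.Y599.IPT

/-- Multiplication by `k` is injective on the differences of labels. -/
theorem mul_inj {k : ℕ} {a b c d : ℕ} (ha : a < k) (hb : b < k) (hc : c < k)
    (hd : d < k)
    (h : (k : ZMod (k * (2 * k - 1))) * ((a : ZMod (k * (2 * k - 1))) - b) = k * (c - d)) :
    (a : ZMod (k * (2 * k - 1))) - b = c - d := by
  have h1 : ((((k : ℤ) * ((a - b) - (c - d))) : ℤ) : ZMod (k * (2 * k - 1))) = 0 := by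
    push_cast
    linear_combination h
  rw [ZMod.intCast_zmod_eq_zero_iff_dvd] at h1
  have e : ((k * (2 * k - 1) : ℕ) : ℤ) = (k : ℤ) * (2 * k - 1) := by
    rw [Nat.cast_mul, Nat.cast_sub (by omega)]
    push_cast
    ring
  rw [e] at h1
  have hk0 : (k : ℤ) ≠ 0 := by omega
  have h2 := (mul_dvd_mul_iff_left hk0).1 h1
  have h3 : ((a : ℤ) - b) - (c - d) = 0 := by
    refine Int.eq_zero_of_abs_lt_dvd h2 ?_
    rw [abs_lt]
    constructor <;> omega
  have h4 : (((a : ℤ) - b - (c - d) : ℤ) : ZMod (k * (2 * k - 1))) = 0 := by rw [h3]; simp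
  push_cast at h4
  linear_combination h4

/-- The differences of labels. -/
def Df (k : ℕ) : Set (ZMod (k * (2 * k - 1))) :=
  {x | ∃ l < k, ∃ l' < k,
    x = (l : ZMod (k * (2 * k - 1))) - (l' : ZMod (k * (2 * k - 1)))}

/-- A permutation which is multiplication by `k` on the differences of labels. -/
theorem exists_perm {k : ℕ} (hk : 1 ≤ k) : ∃ τ : Equiv.Perm (ZMod (k * (2 * k - 1))),
    ∀ x ∈ Df k, τ x = k * x := by
  classical
  have hm : k * (2 * k - 1) ≠ 0 := Nat.mul_ne_zero (by omega) (by omega)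
  have : NeZero (k * (2 * k - 1)) := ⟨hm⟩
  have hinj : Set.InjOn (fun x : ZMod (k * (2 * k - 1)) => (k : ZMod _) * x) (Df k) := by
    rintro x ⟨a, ha, b, hb, rfl⟩ y ⟨c, hc, d, hd, rfl⟩ h
    exact mul_inj ha hb hc hd h
  let s : Finset (ZMod (k * (2 * k - 1))) := Finset.univ.filter fun x => x ∈ Df k
  obtain ⟨g, hg⟩ := Finset.exists_equiv_extend_of_card_eq (α := ZMod (k * (2 * k - 1)))
    (β := ZMod (k * (2 * k - 1))) (t := Finset.univ) (by simp) (s := s)
    (f := fun x => (k : ZMod _) * x) (by simp) (by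
      intro x hx y hy h
      exact hinj (by simpa [s] using hx) (by simpa [s] using hy) h)
  refine ⟨g.trans (Equiv.subtypeUnivEquiv (by simp)), fun x hx => ?_⟩
  exact hg x (by simp [s, hx])

/-- The algebra. -/
theorem exists_op {k : ℕ} (hk : 1 ≤ k) : ∃ (op : Fin (k * (2 * k - 1)) → Fin (k * (2 * k - 1)) →
    ℕ → Fin (k * (2 * k - 1))) (Good : Fin (k * (2 * k - 1)) → ℕ → Prop),
    Primrec (fun p : Fin (k * (2 * k - 1)) × Fin (k * (2 * k - 1)) × ℕ => op p.1 p.2.1 p.2.2) ∧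
    (∀ u v a, a < k → op u v a = u → Good v a) ∧
    (∀ u v v' a, op u v a = op u v' a → v = v') ∧
    (∀ u x v a l l', a < k → l < k → l' < k → op u (op x v a) l' = op u x l → Good v a) ∧
    ∀ v a a', a < k → a' < k → Good v a → Good v a' → a = a' := by
  classical
  have hm : k * (2 * k - 1) ≠ 0 := Nat.mul_ne_zero (by omega) (by omega)
  have : NeZero (k * (2 * k - 1)) := ⟨hm⟩
  have : NeZero k := ⟨by omega⟩
  obtain ⟨τ, hτ⟩ := exists_perm hk
  let ε : Fin (k * (2 * k - 1)) ≃ ZMod (k * (2 * k - 1)) := (ZMod.finEquiv _).toEquiv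
  let op : Fin (k * (2 * k - 1)) → Fin (k * (2 * k - 1)) → ℕ → Fin (k * (2 * k - 1)) :=
    fun u v a => ε.symm (ε u + τ.symm (ε v + (a : ℕ)))
  have hop : ∀ u v a, ε (op u v a) = ε u + τ.symm (ε v + (a : ℕ)) := fun u v a =>
    ε.apply_symm_apply _
  refine ⟨op, fun v a => τ.symm (ε v + (a : ℕ)) ∈ Df k, ?_, ?_, ?_, ?_, ?_⟩
  · let G : Fin (k * (2 * k - 1)) × Fin (k * (2 * k - 1)) × Fin (k * (2 * k - 1)) →
      Fin (k * (2 * k - 1)) := fun p => op p.1 p.2.1 p.2.2.val
    have hG : Primrec G := Primrec.dom_finite G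
    have hmod : Primrec fun n : ℕ => (⟨n % (k * (2 * k - 1)), Nat.mod_lt _ (Nat.pos_of_ne_zero hm)⟩ :
        Fin (k * (2 * k - 1))) :=
      Primrec.fin_val_iff.1 (Primrec.nat_mod.comp Primrec.id (Primrec.const _))
    refine (hG.comp (Primrec.pair Primrec.fst (Primrec.pair (Primrec.fst.comp Primrec.snd)
      (hmod.comp (Primrec.snd.comp Primrec.snd))))).of_eq fun p => ?_
    show ε.symm (ε p.1 + τ.symm (ε p.2.1 + ((p.2.2 % (k * (2 * k - 1)) : ℕ) : ZMod _))) =
      ε.symm (ε p.1 + τ.symm (ε p.2.1 + (p.2.2 : ℕ)))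
    rw [ZMod.natCast_mod]
  · intro u v a ha h
    have h1 := congrArg ε h
    rw [hop] at h1
    have h2 : τ.symm (ε v + (a : ℕ)) = 0 := by
      have : ε u + τ.symm (ε v + (a : ℕ)) = ε u + 0 := by rw [h1, add_zero]
      exact add_left_cancel this
    show τ.symm (ε v + (a : ℕ)) ∈ Df k
    rw [h2]
    exact ⟨0, by omega, 0, by omega, by simp⟩
  · intro u v v' a h
    have h1 := congrArg ε h
    rw [hop, hop] at h1
    have h2 := τ.symm.injective (add_left_cancel h1)
    exact ε.injective (add_right_cancel h2)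
  · intro u x v a l l' _ hl hl' h
    have h1 := congrArg ε h
    rw [hop, hop, hop] at h1
    have h2 := τ.symm.injective (add_left_cancel h1)
    refine ⟨l, hl, l', hl', ?_⟩
    linear_combination h2
  · rintro v a a' ha ha' ⟨l, hl, l', hl', h⟩ ⟨n, hn, n', hn', h'⟩
    have h1 : ε v + (a : ZMod (k * (2 * k - 1))) = k * ((l : ZMod (k * (2 * k - 1))) - (l' : ZMod (k * (2 * k - 1)))) := by
      rw [← hτ _ ⟨l, hl, l', hl', rfl⟩, ← h, Equiv.apply_symm_apply]
    have h2 : ε v + (a' : ZMod (k * (2 * k - 1))) = k * ((n : ZMod (k * (2 * k - 1))) - (n' : ZMod (k * (2 * k - 1)))) := by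
      rw [← hτ _ ⟨n, hn, n', hn', rfl⟩, ← h', Equiv.apply_symm_apply]
    have h3 : (a : ZMod (k * (2 * k - 1))) - (a' : ZMod (k * (2 * k - 1))) =
        k * (((l : ZMod (k * (2 * k - 1))) - (l' : ZMod (k * (2 * k - 1)))) - ((n : ZMod (k * (2 * k - 1))) - (n' : ZMod (k * (2 * k - 1))))) := by
      linear_combination h1 - h2
    have h4 := congrArg (ZMod.castHom (Dvd.intro _ rfl : k ∣ k * (2 * k - 1)) (ZMod k)) h3
    simp only [map_sub, map_mul, map_natCast, ZMod.natCast_self, zero_mul] at h4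
    rw [sub_eq_zero, ZMod.natCast_eq_natCast_iff', Nat.mod_eq_of_lt ha, Nat.mod_eq_of_lt ha'] at h4
    exact h4

end Pool.Agent.Y599.IPT
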