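import Pool.Agent.Y599.IPT.Tree
import Pool.Agent.H645R2.HT.Univ

/-! Computability of the colouring relative to a table, and locality. -/

namespace Pool.Agent.Y599.IPT

open Pool.Agent.Helper446 Pool.Agent.Helper446.RE Pool.Agent.Helper446.Oracle
open Pool.Agent.H645R2.HT

/-- The function given by a table. -/
def FT (tb : List ℕ) (a b c : ℕ) : ℕ := tb.getD (Nat.pair a (Nat.pair b c)) 0

theorem pr_FT {α : Type} [Primcodable α] {tb : α → List ℕ} {a b c : α → ℕ} (ht : Primrec tb)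
    (ha : Primrec a) (hb : Primrec b) (hc : Primrec c) :
    Primrec fun x => FT (tb x) (a x) (b x) (c x) := by
  unfold FT
  exact (Primrec.list_getD 0).comp ht (Primrec₂.natPair.comp ha (Primrec₂.natPair.comp hb hc))

theorem pr_Bad {α : Type} [Primcodable α] {tb : α → List ℕ} {s a b : α → ℕ} (ht : Primrec tb)
    (hs : Primrec s) (ha : Primrec a) (hb : Primrec b) :
    PrimrecPred fun x => Bad (FT (tb x)) (s x) (a x) (b x) := by
  have h1 : PrimrecRel fun (r : ℕ) (p : List ℕ × ℕ × ℕ × ℕ) =>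
      FT p.1 r p.2.1 p.2.2.1 ≠ FT p.1 r p.2.1 p.2.2.2 := by
    refine PrimrecPred.not (Primrec.eq.comp ?_ ?_)
    · exact pr_FT (Primrec.fst.comp Primrec.snd) Primrec.fst
        (Primrec.fst.comp (Primrec.snd.comp Primrec.snd))
        (Primrec.fst.comp (Primrec.snd.comp (Primrec.snd.comp Primrec.snd)))
    · exact pr_FT (Primrec.fst.comp Primrec.snd) Primrec.fst
        (Primrec.fst.comp (Primrec.snd.comp Primrec.snd))
        (Primrec.snd.comp (Primrec.snd.comp (Primrec.snd.comp Primrec.snd)))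
  have h2 := h1.exists_mem_list.comp (Primrec.list_range.comp hs)
    (Primrec.pair ht (Primrec.pair hs (Primrec.pair ha hb)))
  refine h2.of_eq fun x => ?_
  simp [Bad]

theorem pr_Start {α : Type} [Primcodable α] {tb w : α → List ℕ} {c : α → ℕ} (ht : Primrec tb)
    (hw : Primrec w) (hc : Primrec c) :
    PrimrecPred fun x => Start (FT (tb x)) (w x) (c x) := by
  unfold Start
  refine PrimrecPred.or (Primrec.eq.comp hc (Primrec.const 1)) (pr_Bad ht ?_ ?_ ?_)
  · exact (Primrec.list_getD 0).comp hw (Primrec.const 0)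
  · exact (Primrec.list_getD 0).comp hw (Primrec.nat_sub.comp hc (Primrec.const 1))
  · exact (Primrec.list_getD 0).comp hw hc

theorem pr_cut {α : Type} [Primcodable α] {tb w : α → List ℕ} (ht : Primrec tb)
    (hw : Primrec w) : Primrec fun x => cut (FT (tb x)) (w x) := by
  unfold cut
  refine Primrec.nat_findGreatest (p := fun x c => Start (FT (tb x)) (w x) c)
    (Primrec.nat_sub.comp (Primrec.list_length.comp hw) (Primrec.const 1)) ?_
  exact pr_Start (ht.comp Primrec.fst) (hw.comp Primrec.fst) Primrec.snd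

theorem pr_V {A : Type} [Primcodable A] {op : A → A → ℕ → A} (z : A)
    (hop : Primrec fun p : A × A × ℕ => op p.1 p.2.1 p.2.2) :
    Primrec₂ fun (tb w : List ℕ) => V op z (FT tb) w := by
  have hlen : PrimrecRel fun (tb w : List ℕ) => 2 ≤ w.length :=
    Primrec.nat_le.comp (Primrec.const 2) (Primrec.list_length.comp Primrec.snd)
  refine Primrec.nat_omega_rec (fun tb w => V op z (FT tb) w)
    (m := fun _ w => w.length)
    (l := fun tb w => if 2 ≤ w.length then [w.take (cut (FT tb) w), w.drop (cut (FT tb) w)] else [])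
    (g := fun tb p => some (if 2 ≤ p.1.length then op (p.2.getD 0 z) (p.2.getD 1 z)
      (FT tb (p.1.getD (cut (FT tb) p.1 - 1) 0) (p.1.getD (cut (FT tb) p.1) 0)
        (p.1.getD (p.1.length - 1) 0)) else z))
    ?_ ?_ ?_ ?_ ?_
  · exact Primrec.list_length.comp Primrec.snd
  · refine Primrec.ite hlen ?_ (Primrec.const [])
    have hc := pr_cut (α := List ℕ × List ℕ) Primrec.fst Primrec.snd
    exact Primrec.list_cons.comp (Primrec.list_take.comp hc Primrec.snd)
      (Primrec.list_cons.comp (Primrec.list_drop.comp hc Primrec.snd) (Primrec.const []))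
  · refine Primrec.option_some.comp ?_
    have hw : Primrec fun x : List ℕ × List ℕ × List A => x.2.1 :=
      Primrec.fst.comp Primrec.snd
    have hv : Primrec fun x : List ℕ × List ℕ × List A => x.2.2 :=
      Primrec.snd.comp Primrec.snd
    have hc : Primrec fun x : List ℕ × List ℕ × List A => cut (FT x.1) x.2.1 :=
      pr_cut Primrec.fst hw
    refine Primrec.ite (Primrec.nat_le.comp (Primrec.const 2) (Primrec.list_length.comp hw)) ?_
      (Primrec.const z)
    refine hop.comp (Primrec.pair ((Primrec.list_getD z).comp hv (Primrec.const 0))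
      (Primrec.pair ((Primrec.list_getD z).comp hv (Primrec.const 1))
        (pr_FT Primrec.fst ?_ ?_ ?_)))
    · exact (Primrec.list_getD 0).comp hw (Primrec.nat_sub.comp hc (Primrec.const 1))
    · exact (Primrec.list_getD 0).comp hw hc
    · exact (Primrec.list_getD 0).comp hw
        (Primrec.nat_sub.comp (Primrec.list_length.comp hw) (Primrec.const 1))
  · intro tb w w' hw'
    split_ifs at hw' with h
    · have h1 := cut_lt (F := FT tb) h
      have h2 := cut_pos (F := FT tb) h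
      simp only [List.mem_cons, List.not_mem_nil, or_false] at hw'
      rcases hw' with rfl | rfl
      · simp only [List.length_take]; omega
      · simp only [List.length_drop]; omega
    · simp at hw'
  · intro tb w
    by_cases h : 2 ≤ w.length
    · simp only [h, if_true, List.map_cons, List.map_nil]
      rw [V_eq op z (FT tb) h, getLastD_eq_getD]
      rfl
    · simp only [h, if_false]
      rw [V, dif_neg h]

theorem Bad_congr {F F' : ℕ → ℕ → ℕ → ℕ} {N : ℕ}
    (h : ∀ a ≤ N, ∀ b ≤ N, ∀ c ≤ N, F a b c = F' a b c) {s a b : ℕ} (hs : s ≤ N) (ha : a ≤ N)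
    (hb : b ≤ N) : Bad F s a b ↔ Bad F' s a b := by
  unfold Bad
  constructor
  · rintro ⟨r, hr, hne⟩
    exact ⟨r, hr, by rw [← h r (by omega) s hs a ha, ← h r (by omega) s hs b hb]; exact hne⟩
  · rintro ⟨r, hr, hne⟩
    exact ⟨r, hr, by rw [h r (by omega) s hs a ha, h r (by omega) s hs b hb]; exact hne⟩

theorem getD_le {w : List ℕ} {N : ℕ} (h : ∀ x ∈ w, x ≤ N) (i : ℕ) : w.getD i 0 ≤ N := by
  by_cases hi : i < w.length
  · exact h _ (getD_mem hi)
  · rw [List.getD_eq_default _ _ (by omega)]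
    omega

theorem cut_congr {F F' : ℕ → ℕ → ℕ → ℕ} {N : ℕ}
    (h : ∀ a ≤ N, ∀ b ≤ N, ∀ c ≤ N, F a b c = F' a b c) {w : List ℕ} (hw : ∀ x ∈ w, x ≤ N) :
    cut F w = cut F' w := by
  unfold cut
  have e : Start F w = Start F' w := by
    funext c
    unfold Start
    rw [Bad_congr h (getD_le hw _) (getD_le hw _) (getD_le hw _)]
  have : ∀ (P Q : ℕ → Prop) [DecidablePred P] [DecidablePred Q], P = Q → ∀ n,
      Nat.findGreatest P n = Nat.findGreatest Q n := by
    intro P Q _ _ hPQ n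
    subst hPQ
    congr
  exact this _ _ e _

theorem V_congr {A : Type} (op : A → A → ℕ → A) (z : A) {F F' : ℕ → ℕ → ℕ → ℕ} {N : ℕ}
    (h : ∀ a ≤ N, ∀ b ≤ N, ∀ c ≤ N, F a b c = F' a b c) :
    ∀ (n : ℕ) (w : List ℕ), w.length ≤ n → (∀ x ∈ w, x ≤ N) → V op z F w = V op z F' w := by
  intro n
  induction n with
  | zero =>
    intro w hl _
    rw [V, dif_neg (by omega), V, dif_neg (by omega)]
  | succ n ih =>
    intro w hl hw
    by_cases h2 : 2 ≤ w.length
    · have c1 := cut_lt (F := F) h2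
      have c2 := cut_pos (F := F) h2
      rw [V_eq op z F h2, V_eq op z F' h2, ← cut_congr h hw,
        ih (w.take (cut F w)) (by rw [List.length_take]; omega)
          (fun x hx => hw x (List.mem_of_mem_take hx)),
        ih (w.drop (cut F w)) (by rw [List.length_drop]; omega)
          (fun x hx => hw x (List.mem_of_mem_drop hx)), getLastD_eq_getD,
        h _ (getD_le hw _) _ (getD_le hw _) _ (getD_le hw _)]
    · rw [V, dif_neg h2, V, dif_neg h2]

/-- The gap `(u, v)` is short, as seen from `s`. -/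
def gg (F : ℕ → ℕ → ℕ → ℕ) (s _x u v : ℕ) : Bool :=
  exB (fun t => exB (fun r => exB (fun a => decide (v ≤ a) && !(decide (F r t a = F r t (a + 1))))
    s) t) (u + 1)

theorem gg_iff {F : ℕ → ℕ → ℕ → ℕ} {s x u v : ℕ} : gg F s x u v = true ↔
    ∃ t ≤ u, ∃ r < t, ∃ a < s, v ≤ a ∧ F r t a ≠ F r t (a + 1) := by
  unfold gg
  simp only [exB_iff, Bool.and_eq_true, decide_eq_true_eq, Bool.not_eq_true', decide_eq_false_iff_not,
    Nat.lt_succ_iff]

theorem gg_congr {F F' : ℕ → ℕ → ℕ → ℕ} {N : ℕ}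
    (h : ∀ a ≤ N, ∀ b ≤ N, ∀ c ≤ N, F a b c = F' a b c) {s x u v : ℕ} (hs : s ≤ N) (hu : u ≤ N) :
    gg F s x u v = gg F' s x u v := by
  rw [Bool.eq_iff_iff, gg_iff, gg_iff]
  constructor
  · rintro ⟨t, ht, r, hr, a, ha, hv, hne⟩
    refine ⟨t, ht, r, hr, a, ha, hv, ?_⟩
    rw [← h r (by omega) t (by omega) a (by omega), ← h r (by omega) t (by omega) _ (by omega)]
    exact hne
  · rintro ⟨t, ht, r, hr, a, ha, hv, hne⟩
    refine ⟨t, ht, r, hr, a, ha, hv, ?_⟩
    rw [h r (by omega) t (by omega) a (by omega), h r (by omega) t (by omega) _ (by omega)]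
    exact hne

theorem c_gg : Computable fun p : (List ℕ × ℕ × ℕ) × ℕ × ℕ =>
    gg (FT p.1.1) p.1.2.1 p.1.2.2 p.2.1 p.2.2 := by
  unfold gg
  refine computable_exB (q := fun (p : (List ℕ × ℕ × ℕ) × ℕ × ℕ) t =>
    exB (fun r => exB (fun a => decide (p.2.2 ≤ a) && !(decide (FT p.1.1 r t a = FT p.1.1 r t (a + 1))))
    p.1.2.1) t) ?_ (by fun_prop)
  refine computable_exB (α := ((List ℕ × ℕ × ℕ) × ℕ × ℕ) × ℕ) (q := fun x r =>
    exB (fun a => decide (x.1.2.2 ≤ a) &&
      !(decide (FT x.1.1.1 r x.2 a = FT x.1.1.1 r x.2 (a + 1)))) x.1.1.2.1) ?_ (by fun_prop)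
  refine computable_exB (α := (((List ℕ × ℕ × ℕ) × ℕ × ℕ) × ℕ) × ℕ) (q := fun x a =>
    decide (x.1.1.2.2 ≤ a) &&
      !(decide (FT x.1.1.1.1 x.2 x.1.2 a = FT x.1.1.1.1 x.2 x.1.2 (a + 1)))) ?_ (by fun_prop)
  unfold Computable₂
  have h0 : Primrec fun x : ((((List ℕ × ℕ × ℕ) × ℕ × ℕ) × ℕ) × ℕ) × ℕ => x.1.1.1.1.1 :=
    Primrec.fst.comp (Primrec.fst.comp (Primrec.fst.comp (Primrec.fst.comp Primrec.fst)))
  have h1 : Primrec fun x : ((((List ℕ × ℕ × ℕ) × ℕ × ℕ) × ℕ) × ℕ) × ℕ => x.1.2 :=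
    Primrec.snd.comp Primrec.fst
  have h2 : Primrec fun x : ((((List ℕ × ℕ × ℕ) × ℕ × ℕ) × ℕ) × ℕ) × ℕ => x.1.1.2 :=
    Primrec.snd.comp (Primrec.fst.comp Primrec.fst)
  have h3 : Primrec fun x : ((((List ℕ × ℕ × ℕ) × ℕ × ℕ) × ℕ) × ℕ) × ℕ => x.2 := Primrec.snd
  have h4 : Primrec fun x : ((((List ℕ × ℕ × ℕ) × ℕ × ℕ) × ℕ) × ℕ) × ℕ => x.1.1.1.2.2 :=
    Primrec.snd.comp (Primrec.snd.comp (Primrec.fst.comp (Primrec.fst.comp Primrec.fst)))
  have e1 : PrimrecPred fun x : ((((List ℕ × ℕ × ℕ) × ℕ × ℕ) × ℕ) × ℕ) × ℕ =>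
      x.1.1.1.2.2 ≤ x.2 := Primrec.nat_le.comp h4 h3
  have e2 : PrimrecPred fun x : ((((List ℕ × ℕ × ℕ) × ℕ × ℕ) × ℕ) × ℕ) × ℕ =>
      FT x.1.1.1.1.1 x.1.2 x.1.1.2 x.2 = FT x.1.1.1.1.1 x.1.2 x.1.1.2 (x.2 + 1) :=
    Primrec.eq.comp (pr_FT h0 h1 h2 h3) (pr_FT h0 h1 h2 (Primrec.succ.comp h3))
  exact (Primrec.and.comp e1.decide (Primrec.not.comp e2.decide)).to_comp

theorem L_le {n i : ℕ} (h : i ∈ L n) : i ≤ n := (dg_lt (mem_L.1 h)).le

theorem mu_le (n : ℕ) : mu n ≤ n := by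
  rcases Nat.eq_zero_or_pos n with h | h
  · subst h; decide
  · exact L_le (mu_mem h)

theorem la_le' (n : ℕ) : la n ≤ n := by
  rcases Nat.eq_zero_or_pos n with h | h
  · subst h; decide
  · exact L_le (la_mem h)

theorem C_congr {F F' : ℕ → ℕ → ℕ → ℕ} {n : ℕ}
    (h : ∀ a ≤ n, ∀ b ≤ n, ∀ c ≤ n, F a b c = F' a b c) : C (gg F) n = C (gg F') n := by
  unfold C
  refine gs_congr (L_sorted n).pairwise fun a ha b hb _ => ?_
  exact gg_congr h (mu_le n) (L_le ha)

/-- The colouring. -/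
def col {m : ℕ} (op : Fin m → Fin m → ℕ → Fin m) (z : Fin m) (F : ℕ → ℕ → ℕ → ℕ) (n : ℕ) : ℕ :=
  (if b0 n = true then 1 else 0) + 2 * (if C (gg F) n = true then 1 else 0) +
    4 * (V op z F (L n)).val

theorem col_lt {m : ℕ} (op : Fin m → Fin m → ℕ → Fin m) (z : Fin m) (F : ℕ → ℕ → ℕ → ℕ)
    (n : ℕ) : col op z F n < 4 * m := by
  have := (V op z F (L n)).isLt
  unfold col
  split_ifs <;> omega

theorem col_congr {m : ℕ} (op : Fin m → Fin m → ℕ → Fin m) (z : Fin m) {F F' : ℕ → ℕ → ℕ → ℕ}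
    {n : ℕ} (h : ∀ a ≤ n, ∀ b ≤ n, ∀ c ≤ n, F a b c = F' a b c) :
    col op z F n = col op z F' n := by
  unfold col
  rw [C_congr h, V_congr op z h _ (L n) (le_refl _) fun x hx => L_le hx]

theorem c_col {m : ℕ} {op : Fin m → Fin m → ℕ → Fin m} (z : Fin m)
    (hop : Primrec fun p : Fin m × Fin m × ℕ => op p.1 p.2.1 p.2.2) :
    Computable fun p : ℕ × List ℕ => col op z (FT p.2) p.1 := by
  have h1 : Computable fun p : ℕ × List ℕ => C (gg (FT p.2)) p.1 := by
    unfold C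
    refine c_gs (γ := fun p : ℕ × List ℕ => gg (FT p.2) (mu p.1) (la p.1)) ?_ (by fun_prop)
    exact c_gg.comp (g := fun x : (ℕ × List ℕ) × ℕ × ℕ => ((x.1.2, mu x.1.1, la x.1.1), x.2))
      (by fun_prop)
  have h2 : Computable fun p : ℕ × List ℕ => V op z (FT p.2) (L p.1) :=
    (pr_V z hop).to_comp.comp (Computable.snd) (pr_L.to_comp.comp Computable.fst)
  have h3 : Computable fun p : ℕ × List ℕ => (V op z (FT p.2) (L p.1)).val :=
    Primrec.fin_val.to_comp.comp h2
  have hb : Primrec fun b : Bool => if b = true then 1 else 0 := Primrec.dom_finite _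
  have h4 : Computable fun p : ℕ × List ℕ => if b0 p.1 = true then 1 else 0 :=
    hb.to_comp.comp (c_b0.comp Computable.fst)
  have h5 : Computable fun p : ℕ × List ℕ => if C (gg (FT p.2)) p.1 = true then 1 else 0 :=
    hb.to_comp.comp h1
  unfold col
  exact Primrec.nat_add.to_comp.comp (Primrec.nat_add.to_comp.comp h4
    (Primrec.nat_mul.to_comp.comp (Computable.const 2) h5))
    (Primrec.nat_mul.to_comp.comp (Computable.const 4) h3)

end Pool.Agent.Y599.IPT
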