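import Pool.Agent.Y599.IPT.Patt
import Pool.Agent.Y599.IPT.Alg

/-! The final step. -/

namespace Pool.Agent.Y599.IPT

open Pool.Agent.H645R2.HT

theorem pair_le {a b a' b' : ℕ} (h1 : a ≤ a') (h2 : b ≤ b') : Nat.pair a b ≤ Nat.pair a' b' := by
  have e1 : Nat.pair a b ≤ Nat.pair a' b := by
    rcases h1.lt_or_eq with h | h
    · exact (Nat.pair_lt_pair_left b h).le
    · rw [h]
  have e2 : Nat.pair a' b ≤ Nat.pair a' b' := by
    rcases h2.lt_or_eq with h | h
    · exact (Nat.pair_lt_pair_right a' h).le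
    · rw [h]
  exact e1.trans e2

/-- The three-place function coded by `x`. -/
def FX (x : ℕ → ℕ) (a b c : ℕ) : ℕ := x (Nat.pair a (Nat.pair b c))

/-- The bound for the table. -/
def BB (n : ℕ) : ℕ := Nat.pair n (Nat.pair n n) + 1

theorem FT_table {x : ℕ → ℕ} {n a b c : ℕ} (ha : a ≤ n) (hb : b ≤ n) (hc : c ≤ n) :
    FX x a b c = FT ((List.range (BB n)).map x) a b c := by
  have h1 : Nat.pair a (Nat.pair b c) < BB n := by
    have := pair_le ha (pair_le hb hc)
    unfold BB
    omega
  unfold FT FX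
  rw [List.getD_eq_getElem?_getD, List.getElem?_map, List.getElem?_range h1]
  rfl

/-- The colouring is computable in the instance. -/
theorem col_red {m : ℕ} {op : Fin m → Fin m → ℕ → Fin m} (z : Fin m)
    (hop : Primrec fun p : Fin m × Fin m × ℕ => op p.1 p.2.1 p.2.2) (x : ℕ → ℕ) :
    TuringReducible (PFun.lift fun n => col op z (FX x) n) (PFun.lift x) := by
  have h1 := table_red (f := x) (Φ := fun p => col op z (FT p.2) p.1) (B := BB) (c_col z hop)
    (by unfold BB; fun_prop)
  have e : (fun n => col op z (FX x) n) =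
      fun n => col op z (FT ((List.range (BB n)).map x)) n := by
    funext n
    exact col_congr op z fun a ha b hb c hc => FT_table ha hb hc
  rw [e]
  exact h1

/-- Homogeneous sets for the colouring solve the stable instance. -/
theorem main {k : ℕ} (hk : 1 ≤ k) {x : ℕ → ℕ} (hx : ∀ m, x m < k)
    (hst : ∀ a b, a < b → ∃ N, ∀ c, N ≤ c → x (Nat.pair a (Nat.pair b c)) =
      x (Nat.pair a (Nat.pair b (c + 1)))) :
    ∃ y : ℕ → ℕ, (∀ m, y m < 4 * (k * (2 * k - 1))) ∧
      TuringReducible (PFun.lift y) (PFun.lift x) ∧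
      ∀ h : ℕ → ℕ, (∀ m, h m ≤ 1) → Set.Infinite {m : ℕ | h m = 1} →
        (∀ m, h m = 1 → 0 < m) → Const3 y {m : ℕ | h m = 1} →
        ∃ e : ℕ → ℕ, (∀ n, h (e n) = 1) ∧ (∀ n, H645R2.HT.Sep (e n) (e (n + 1))) ∧
        ∃ g : ℕ → ℕ, (∀ m, g m ≤ 1) ∧ TuringReducible (PFun.lift g) (PFun.lift h) ∧
          (∀ m, g (Nat.pair 0 m) = 1 ↔ ∃ n, mu (e n) = m) ∧
          (∀ m, g (Nat.pair 1 m) = 1 ↔ ∃ n, la (e n) = m) ∧
          (∀ m, g (Nat.pair 2 m) = 1 ↔ ∃ n, mu (e n) = m) ∧
          ∃ v, ∀ a b c, a < b → b < c → g (Nat.pair 0 a) = 1 → g (Nat.pair 1 b) = 1 →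
            g (Nat.pair 2 c) = 1 → x (Nat.pair a (Nat.pair b c)) = v := by
  classical
  obtain ⟨op, Good, hop, a1, a2, a3, a4⟩ := exists_op hk
  have hm : 0 < k * (2 * k - 1) := Nat.mul_pos (by omega) (by omega)
  let z : Fin (k * (2 * k - 1)) := ⟨0, hm⟩
  refine ⟨fun n => col op z (FX x) n, fun n => col_lt op z _ n, col_red z hop x, ?_⟩
  intro h hh hinf hpos hc
  have hp : Ps {m : ℕ | h m = 1} := hpos
  have hu0 : Const3 b0 {m : ℕ | h m = 1} := by
    have := hc.map fun i => decide (i % 2 = 1)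
    have e : (fun n => decide (col op z (FX x) n % 2 = 1)) = b0 := by
      funext n
      unfold col
      cases b0 n <;> cases C (gg (FX x)) n <;> simp <;> omega
    rw [e] at this
    exact this
  have hu1 : Const3 (C (gg (FX x))) {m : ℕ | h m = 1} := by
    have := hc.map fun i => decide (i / 2 % 2 = 1)
    have e : (fun n => decide (col op z (FX x) n / 2 % 2 = 1)) = C (gg (FX x)) := by
      funext n
      unfold col
      cases C (gg (FX x)) n <;> cases b0 n <;> simp <;> omega
    rw [e] at this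
    exact this
  have hu2 : Const3 (fun n => V op z (FX x) (L n)) {m : ℕ | h m = 1} := by
    have := hc.map fun i => if hi : i / 4 < k * (2 * k - 1) then
      (⟨i / 4, hi⟩ : Fin (k * (2 * k - 1))) else z
    have e : (fun n => if hi : col op z (FX x) n / 4 < k * (2 * k - 1) then
        (⟨col op z (FX x) n / 4, hi⟩ : Fin (k * (2 * k - 1))) else z) =
        fun n => V op z (FX x) (L n) := by
      funext n
      have h4 : col op z (FX x) n / 4 = (V op z (FX x) (L n)).val := by
        unfold col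
        split_ifs <;> omega
      have h5 := (V op z (FX x) (L n)).isLt
      rw [dif_pos (by omega)]
      exact Fin.ext h4
    rw [e] at this
    exact this
  have hf := hu0.far hinf hp
  obtain ⟨φ, v1, v2, v3⟩ := hu2.one
  obtain ⟨e, e1, e2, g, g1, g2, g3, g4, g5⟩ := solution hh hp hf
  refine ⟨e, e1, e2, g, g1, g2, g3, g4, g5, ?_⟩
  have hpos' : ∀ n, 0 < e n := fun n => hpos _ (e1 n)
  have hsep : ∀ i j, i < j → H645R2.HT.Sep (e i) (e j) := by
    intro i j hij
    induction j, hij using Nat.le_induction with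
    | base => exact e2 i
    | succ j hij ih => exact sep_trans (hpos' j) ih (e2 j)
  have key : ∀ a b c, a < b → b < c → g (Nat.pair 0 a) = 1 → g (Nat.pair 1 b) = 1 →
      g (Nat.pair 2 c) = 1 → Good φ (x (Nat.pair a (Nat.pair b c))) := by
    intro a b c hab hbc ga gb gc
    obtain ⟨i, hi⟩ := (g3 a).1 ga
    obtain ⟨j, hj⟩ := (g4 b).1 gb
    obtain ⟨l, hl⟩ := (g5 c).1 gc
    subst hi hj hl
    have hij : i < j := by
      by_contra hcon
      rcases Nat.lt_or_ge j i with h1 | h1
      · have h2 := hsep j i h1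
        have h3 := la_le_mu (hpos' i)
        have h4 := la_le_mu (hpos' j)
        unfold H645R2.HT.Sep at h2
        omega
      · have : i = j := by omega
        subst this
        have h3 := la_le_mu (hpos' i)
        omega
    have hjl : j ≤ l := by
      by_contra hcon
      have h2 := hsep l j (by omega)
      unfold H645R2.HT.Sep at h2
      omega
    have sij := hsep i j hij
    have hset := settled (F := FX x) (X := {m : ℕ | h m = 1}) (fun r t hrt => hst r t hrt) hp hf
      hu1 (e1 i) (e1 j) sij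
    rcases hjl.lt_or_eq with h1 | h1
    · have sjl := hsep j l h1
      have := pattern op z (F := FX x) (Good := Good) (k := k) (fun _ _ _ => hx _) a1 a2 a3
        (x := e i) (y := e j) (w := e j + e l) (φ := φ) (hpos' i) (hpos' j)
        (by have := hpos' j; omega) sij hset (la_add (hpos' j) sjl) (v1 _ (e1 i))
        (v2 _ (e1 j) _ (e1 l) (sep_ne (hpos' j) sjl))
        (v3 _ (e1 i) _ (e1 j) _ (e1 l) (sep_ne (hpos' i) sij)
          (sep_ne (hpos' i) (sep_trans (hpos' j) sij sjl)) (sep_ne (hpos' j) sjl))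
      rw [mu_add (hpos' l) sjl] at this
      exact this
    · subst h1
      exact pattern op z (F := FX x) (Good := Good) (k := k) (fun _ _ _ => hx _) a1 a2 a3
        (x := e i) (y := e j) (w := e j) (φ := φ) (hpos' i) (hpos' j) (hpos' j) sij hset rfl
        (v1 _ (e1 i)) (v1 _ (e1 j)) (v2 _ (e1 i) _ (e1 j) (sep_ne (hpos' i) sij))
  refine ⟨x (Nat.pair (mu (e 0)) (Nat.pair (la (e 1)) (mu (e 2)))), fun a b c h1 h2 h3 h4 h5 => ?_⟩
  refine a4 φ _ _ (hx _) (hx _) (key a b c h1 h2 h3 h4 h5) (key _ _ _ (e2 0) ?_ ((g3 _).2 ⟨0, rfl⟩)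
    ((g4 _).2 ⟨1, rfl⟩) ((g5 _).2 ⟨2, rfl⟩))
  have := la_le_mu (hpos' 1)
  have h6 : H645R2.HT.Sep (e 1) (e 2) := e2 1
  have := la_le_mu (hpos' 2)
  unfold H645R2.HT.Sep at h6
  omega

end Pool.Agent.Y599.IPT
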