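import Pool.Agent.Y599.IPT.Red

/-! The settled regime and the pattern. -/

namespace Pool.Agent.Y599.IPT

open Pool.Agent.H645R2.HT

variable {F : ℕ → ℕ → ℕ → ℕ} {X : Set ℕ}

theorem exists_bound (hst : ∀ r t, r < t → ∃ N, ∀ a, N ≤ a → F r t a = F r t (a + 1)) (B : ℕ) :
    ∃ N, ∀ t ≤ B, ∀ r < t, ∀ a, N ≤ a → F r t a = F r t (a + 1) := by
  have h1 : ∀ r t, ∃ N, r < t → ∀ a, N ≤ a → F r t a = F r t (a + 1) := by
    intro r t
    by_cases h : r < t
    · obtain ⟨N, hN⟩ := hst r t h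
      exact ⟨N, fun _ => hN⟩
    · exact ⟨0, fun h' => absurd h' h⟩
  choose N hN using h1
  refine ⟨(Finset.range (B + 1) ×ˢ Finset.range (B + 1)).sup fun p => N p.1 p.2,
    fun t ht r hr a ha => hN r t hr a ?_⟩
  have h2 : (r, t) ∈ Finset.range (B + 1) ×ˢ Finset.range (B + 1) := by
    rw [Finset.mem_product, Finset.mem_range, Finset.mem_range]
    exact ⟨by dsimp only; omega, by dsimp only; omega⟩
  have h3 : N (r, t).1 (r, t).2 ≤
      (Finset.range (B + 1) ×ˢ Finset.range (B + 1)).sup fun p => N p.1 p.2 :=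
    Finset.le_sup (f := fun p : ℕ × ℕ => N p.1 p.2) h2
  exact le_trans h3 ha

/-- The gap `(u, v)` is short. -/
def ShP (F : ℕ → ℕ → ℕ → ℕ) (u v : ℕ) : Prop :=
  ∃ t ≤ u, ∃ r < t, ∃ a, v ≤ a ∧ F r t a ≠ F r t (a + 1)

/-- The gap `(u, v)` is short (as a Boolean). -/
noncomputable def sh (F : ℕ → ℕ → ℕ → ℕ) (u v : ℕ) : Bool := by
  classical exact decide (ShP F u v)

theorem sh_iff {u v : ℕ} : sh F u v = true ↔ ShP F u v := by
  unfold sh
  simp

/-- The gaps between apart elements are not short. -/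
theorem not_short (hst : ∀ r t, r < t → ∃ N, ∀ a, N ≤ a → F r t a = F r t (a + 1))
    (hp : Ps X) (hf : Far X) (hc : Const3 (C (gg F)) X) {h l : ℕ} (hh : h ∈ X) (hl : l ∈ X)
    (hhl : H645R2.HT.Sep h l) : ¬ ShP F (mu h) (la l) := by
  obtain ⟨N, hN⟩ := exists_bound hst (mu l)
  obtain ⟨i, k1, k2, k3⟩ := hc.one
  obtain ⟨e, he, hle⟩ := hf (max N (mu l))
  have p1 := hp h hh
  have p2 := hp l hl
  have p3 := hp e he
  have hmm : mu h ≤ mu l := by
    have := la_le_mu p2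
    unfold H645R2.HT.Sep at hhl
    omega
  have s1 : H645R2.HT.Sep l e := by unfold H645R2.HT.Sep; omega
  have s2 : H645R2.HT.Sep h e := sep_trans p2 hhl s1
  have hme : N ≤ mu e := by
    have := la_le_mu p3
    omega
  have key1 : ∀ x u v, u ≤ mu l → gg F (mu e) x u v = sh F u v := by
    intro x u v hu
    rw [Bool.eq_iff_iff, gg_iff, sh_iff]
    constructor
    · rintro ⟨t, ht, r, hr, a, _, hv, hne⟩
      exact ⟨t, ht, r, hr, a, hv, hne⟩
    · rintro ⟨t, ht, r, hr, a, hv, hne⟩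
      refine ⟨t, ht, r, hr, a, ?_, hv, hne⟩
      by_contra hcon
      exact hne (hN t (by omega) r hr a (by omega))
  have key2 : ∀ x u, u ≤ mu l → gg F (mu e) x u (la e) = false := by
    intro x u hu
    rw [← Bool.not_eq_true, gg_iff]
    rintro ⟨t, ht, r, hr, a, _, hv, hne⟩
    exact hne (hN t (by omega) r hr a (by omega))
  have g1 : ∀ x, gs (gg F (mu e) x) (L h) = gs (sh F) (L h) := fun x =>
    gs_congr (L_sorted h).pairwise fun a ha b _ _ => key1 _ _ _ (by have := le_mu ha; omega)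
  have g2 : ∀ x, gs (gg F (mu e) x) (L l) = gs (sh F) (L l) := fun x =>
    gs_congr (L_sorted l).pairwise fun a ha b _ _ => key1 _ _ _ (by have := le_mu ha; omega)
  have g3 : ∀ x y w, gs (gg F (mu e) x) w = gs (gg F (mu e) y) w := fun x y w => rfl
  have c0 := k1 e he
  have c1 := k2 h hh e he (sep_ne p1 s2)
  have c2 := k2 l hl e he (sep_ne p2 s1)
  have c3 := k3 h hh l hl e he (sep_ne p1 hhl) (sep_ne p1 s2) (sep_ne p2 s1)
  unfold C at c0 c1 c2 c3
  rw [gs_add p1 p3 s2, mu_add p3 s2, g1, key2 _ _ (by omega), g3 _ (la e), c0] at c1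
  rw [gs_add p2 p3 s1, mu_add p3 s1, g2, key2 _ _ le_rfl, g3 _ (la e), c0] at c2
  have s3 : H645R2.HT.Sep h (l + e) := sep_add_right p2 hhl s1
  rw [gs_add p1 (by omega) s3, mu_add (by omega) s3, mu_add p3 s1, g1, la_add p2 s1,
    key1 _ _ _ hmm, gs_add p2 p3 s1, g2, key2 _ _ le_rfl, g3 _ (la e), c0] at c3
  intro hcon
  rw [sh_iff.2 hcon] at c3
  have aux : ∀ i a b : Bool, (a ^^ false ^^ i) = i → (b ^^ false ^^ i) = i →
      (a ^^ true ^^ (b ^^ false ^^ i)) = i → False := by decide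
  exact aux _ _ _ c1 c2 c3

/-- Apart elements are settled. -/
theorem settled (hst : ∀ r t, r < t → ∃ N, ∀ a, N ≤ a → F r t a = F r t (a + 1))
    (hp : Ps X) (hf : Far X) (hc : Const3 (C (gg F)) X) {h l : ℕ} (hh : h ∈ X) (hl : l ∈ X)
    (hhl : H645R2.HT.Sep h l) : ∀ t ≤ mu h, ∀ r < t, ∀ a, la l ≤ a → F r t a = F r t (la l) := by
  have h1 := not_short hst hp hf hc hh hl hhl
  intro t ht r hr a ha
  induction a, ha using Nat.le_induction with
  | base => rfl
  | succ a ha ih =>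
    rw [← ih]
    by_contra hcon
    exact h1 ⟨t, ht, r, hr, a, ha, fun h => hcon h.symm⟩

theorem headD_getD (w : List ℕ) : w.getD 0 0 = w.headD 0 := by
  cases w <;> rfl

/-- The pattern. -/
theorem pattern {A : Type} (op : A → A → ℕ → A) (z : A) {Good : A → ℕ → Prop} {k : ℕ}
    (hF : ∀ a b c, F a b c < k)
    (h1 : ∀ u v a, a < k → op u v a = u → Good v a)
    (h2 : ∀ u v v' a, op u v a = op u v' a → v = v')
    (h3 : ∀ u x v a l l', a < k → l < k → l' < k → op u (op x v a) l' = op u x l → Good v a)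
    {x y w : ℕ} {φ : A} (hx : 0 < x) (hy : 0 < y) (hw : 0 < w) (hxy : H645R2.HT.Sep x y)
    (hset : ∀ t ≤ mu x, ∀ r < t, ∀ a, la y ≤ a → F r t a = F r t (la y))
    (hla : la w = la y) (hV1 : V op z F (L x) = φ) (hV2 : V op z F (L w) = φ)
    (hV3 : V op z F (L (x + w)) = φ) : Good φ (F (mu x) (la y) (mu w)) := by
  have hxw : H645R2.HT.Sep x w := by unfold H645R2.HT.Sep at *; omega
  rw [L_add hxw] at hV3
  have := junction op z (F := F) (k := k) hF h1 h2 h3 (y := L w) (L_ne_nil hw) (L x).length (L x)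
    le_rfl (L_ne_nil hx) (L_sorted x).pairwise ?_ (by rw [hV3, hV1])
  · rw [hV2, headD_getD] at this
    rw [← hla]
    exact this
  · intro s hs r hr a ha b hb
    rw [hset s (le_mu hs) r hr a (by rw [← hla]; exact la_le ha),
      hset s (le_mu hs) r hr b (by rw [← hla]; exact la_le hb)]

end Pool.Agent.Y599.IPT
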