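import Pool.Agent.Y599.IPT.Comp

/-! Reductions: the colouring is computable in the instance, the solution in the homogeneous
set. -/

namespace Pool.Agent.Y599.IPT

open Pool.Agent.Helper446 Pool.Agent.Helper446.RE Pool.Agent.Helper446.Oracle
open Pool.Agent.Helper446.Defs
open Pool.Agent.H645R2.HT Encodable

/-- Total functions recursive in the function `f`. -/
def TF (f g : ℕ → ℕ) : Prop := Nat.RecursiveIn {PFun.lift f} fun n => Part.some (g n)

theorem TF.of_comp {f g : ℕ → ℕ} (hg : Computable g) : TF f g :=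
  Nat.Partrec.recursiveIn (Partrec.nat_iff.1 hg)

theorem TF.comp {f g h : ℕ → ℕ} (hg : TF f g) (hh : TF f h) : TF f fun n => g (h n) := by
  refine (Nat.RecursiveIn.comp hg hh).of_eq fun n => ?_
  simp

theorem TF.pair {f g h : ℕ → ℕ} (hg : TF f g) (hh : TF f h) :
    TF f fun n => Nat.pair (g n) (h n) := by
  refine (Nat.RecursiveIn.pair hg hh).of_eq fun n => ?_
  simp [Seq.seq]

theorem TF.oracle {f : ℕ → ℕ} : TF f f := Nat.RecursiveIn.oracle _ rfl

theorem TF.prec {o f h : ℕ → ℕ} (hf : TF o f) (hh : TF o h) :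
    TF o fun p => Nat.rec (motive := fun _ => ℕ) (f p.unpair.1)
      (fun y IH => h (Nat.pair p.unpair.1 (Nat.pair y IH))) p.unpair.2 := by
  refine (Nat.RecursiveIn.prec hf hh).of_eq fun p => ?_
  show (Nat.rec (motive := fun _ => Part ℕ) (Part.some (f p.unpair.1)) (fun y IH =>
    IH.bind fun i => Part.some (h (Nat.pair p.unpair.1 (Nat.pair y i)))) p.unpair.2 : Part ℕ) =
    Part.some (Nat.rec (motive := fun _ => ℕ) (f p.unpair.1)
      (fun y IH => h (Nat.pair p.unpair.1 (Nat.pair y IH))) p.unpair.2)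
  generalize p.unpair.2 = n
  induction n with
  | zero => rfl
  | succ n ih => simp only [ih, Part.bind_some]

/-- Adding one value to a coded table. -/
def stp (r : ℕ) : ℕ :=
  encode (((decode (α := List ℕ) r.unpair.1.unpair.2.unpair.2).getD []) ++ [r.unpair.2])

theorem c_stp : Computable stp := by
  unfold stp
  refine Computable.encode.comp (Primrec.list_append.to_comp.comp ?_ ?_)
  · exact Primrec.option_getD.to_comp.comp (by fun_prop) (Computable.const [])
  · exact Primrec.list_cons.to_comp.comp (by fun_prop) (Computable.const [])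

theorem TF.table {f : ℕ → ℕ} : TF f fun n => encode ((List.range n).map f) := by
  have h1 : TF f fun q => stp (Nat.pair q (f q.unpair.2.unpair.1)) := by
    refine (TF.of_comp c_stp).comp ((TF.of_comp (g := fun q => q) Computable.id).pair ?_)
    exact TF.oracle.comp (TF.of_comp (g := fun q => q.unpair.2.unpair.1) (by fun_prop))
  have h2 := TF.prec (TF.of_comp (f := f) (Computable.const (encode ([] : List ℕ)))) h1
  have h3 := h2.comp (TF.of_comp (f := f) (g := fun n => Nat.pair 0 n) (by fun_prop))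
  refine Nat.RecursiveIn.of_eq h3 fun n => ?_
  simp only [Nat.unpair_pair]
  congr 1
  induction n with
  | zero => rfl
  | succ n ih =>
    simp only [ih]
    unfold stp
    simp only [Nat.unpair_pair, encodek, Option.getD_some, List.range_succ, List.map_append,
      List.map_cons, List.map_nil]

theorem table_red {f : ℕ → ℕ} {Φ : ℕ × List ℕ → ℕ} {B : ℕ → ℕ} (hΦ : Computable Φ)
    (hB : Computable B) :
    TuringReducible (PFun.lift fun n => Φ (n, (List.range (B n)).map f)) (PFun.lift f) := by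
  have h0 : Computable fun q : ℕ =>
      Φ (q.unpair.1, (decode (α := List ℕ) q.unpair.2).getD []) := by
    refine hΦ.comp (Computable.pair (by fun_prop) ?_)
    exact Primrec.option_getD.to_comp.comp (by fun_prop) (Computable.const [])
  have h1 : TF f fun n => Φ (n, (List.range (B n)).map f) := by
    have h2 := (TF.of_comp (f := f) h0).comp ((TF.of_comp (g := fun n => n) Computable.id).pair
      (TF.table.comp (TF.of_comp hB)))
    refine Nat.RecursiveIn.of_eq h2 fun n => ?_
    simp only [Nat.unpair_pair, encodek, Option.getD_some]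
  exact RecursiveIn.iff_nat.2 h1

/-- A separated sequence computable in the set. -/
theorem seq_exists {A : Set ℕ} (hf : Far A) :
    ∃ e : ℕ → ℕ, TotIn A e ∧ (∀ n, e n ∈ A) ∧ ∀ n, Sep (e n) (e (n + 1)) := by
  classical
  let N : ℕ → ℕ := fun j => Nat.find (hf j)
  have hN : ∀ j, N j ∈ A ∧ j < la (N j) := fun j => Nat.find_spec (hf j)
  have hTN : TotIn A N := by
    apply recursiveIn_of_graph
    have h1 : REIn A fun p : ℕ × ℕ => p.2 ∈ A ∧ p.1 < la p.2 ∧
        ∀ y < p.2, (y ∉ A ∨ la y ≤ p.1) := by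
      refine REIn.and (REIn.mem Computable.snd) (REIn.and (REIn.of_re (RE.lt (by fun_prop)
        (by fun_prop))) (REIn.all_lt (S := fun (p : ℕ × ℕ) y => y ∉ A ∨ la y ≤ p.1) ?_
        (by fun_prop)))
      exact REIn.or (REIn.not_mem Computable.snd) (REIn.of_re (RE.le (by fun_prop) (by fun_prop)))
    refine h1.of_eq fun p => ?_
    constructor
    · rintro ⟨h2, h3, h4⟩
      rw [show N p.1 = Nat.find (hf p.1) from rfl, Nat.find_eq_iff]
      refine ⟨⟨h2, h3⟩, fun y hy h5 => ?_⟩
      rcases h4 y hy with h6 | h6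
      · exact h6 h5.1
      · exact absurd h5.2 (by omega)
    · intro h2
      rw [← h2]
      refine ⟨(hN p.1).1, (hN p.1).2, fun y hy => ?_⟩
      have := Nat.find_min (hf p.1) hy
      by_cases h6 : y ∈ A
      · right
        by_contra h7
        exact this ⟨h6, by omega⟩
      · exact Or.inl h6
  let e : ℕ → ℕ := fun n => Nat.rec (motive := fun _ => ℕ) (N 0) (fun _ i => N (mu i)) n
  have hTe : TotIn A e := by
    have h1 : TotIn A fun q => N (mu q.unpair.2.unpair.2) :=
      hTN.comp (TotIn.of_comp (by fun_prop))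
    have h2 := TotIn.prec (TotIn.of_comp (A := A) (Computable.const (N 0))) h1
    have h3 := h2.comp (TotIn.of_comp (A := A) (f := fun n => Nat.pair 0 n) (by fun_prop))
    refine Nat.RecursiveIn.of_eq h3 fun n => ?_
    simp only [Nat.unpair_pair]
    rfl
  refine ⟨e, hTe, fun n => ?_, fun n => ?_⟩
  · cases n with
    | zero => exact (hN 0).1
    | succ n => exact (hN _).1
  · exact (hN (mu (e n))).2

/-- The solution computed from a set with far elements. -/
theorem solution {h : ℕ → ℕ} (h1 : ∀ m, h m ≤ 1) (hp : Ps {m : ℕ | h m = 1})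
    (hf : Far {m : ℕ | h m = 1}) :
    ∃ e : ℕ → ℕ, (∀ n, h (e n) = 1) ∧ (∀ n, Sep (e n) (e (n + 1))) ∧
      ∃ g : ℕ → ℕ, (∀ m, g m ≤ 1) ∧ TuringReducible (PFun.lift g) (PFun.lift h) ∧
        (∀ m, g (Nat.pair 0 m) = 1 ↔ ∃ n, mu (e n) = m) ∧
        (∀ m, g (Nat.pair 1 m) = 1 ↔ ∃ n, la (e n) = m) ∧
        (∀ m, g (Nat.pair 2 m) = 1 ↔ ∃ n, mu (e n) = m) := by
  classical
  obtain ⟨e, he, he1, he2⟩ := seq_exists hf
  refine ⟨e, he1, he2, ?_⟩
  have hpos : ∀ n, 0 < e n := fun n => hp _ (he1 n)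
  have hlen : ∀ n, n ≤ la (e n) := by
    intro n
    induction n with
    | zero => omega
    | succ n ih =>
      have := sep_lt (hpos n) (he2 n)
      omega
  have hlm : ∀ n, la (e n) ≤ mu (e n) := fun n => la_le_mu (hpos n)
  let ps : ℕ → ℕ → ℕ := fun q v => if q.unpair.1 = 1 then la v else mu v
  have cps : Computable fun p : ℕ × ℕ => ps p.1 p.2 := by
    exact RE.cite (RE.cp_eq (by fun_prop) (by fun_prop)) (by fun_prop) (by fun_prop)
  let D : Set ℕ := {q | ∃ n, ps q (e n) = q.unpair.2}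
  have hb : ∀ q n, n ≤ ps q (e n) := by
    intro q n
    have := hlen n
    have := hlm n
    show n ≤ if q.unpair.1 = 1 then la (e n) else mu (e n)
    split_ifs <;> omega
  have hg : REIn {m : ℕ | h m = 1} fun p : ℕ × ℕ => e p.1 = p.2 := by
    refine (graph_of_recursiveIn he).of_eq fun p => ?_
    rw [Part.mem_some_iff]
    exact eq_comm
  have hD1 : REIn {m : ℕ | h m = 1} (· ∈ D) := by
    have h2 : REIn {m : ℕ | h m = 1} fun q : ℕ => ∃ p : ℕ × ℕ, e p.1 = p.2 ∧
        ps q p.2 = q.unpair.2 := by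
      refine REIn.ex (S := fun (q : ℕ) (p : ℕ × ℕ) => e p.1 = p.2 ∧ ps q p.2 = q.unpair.2) ?_
      refine REIn.and (hg.comp (f := fun x : ℕ × ℕ × ℕ => x.2) (by fun_prop)) (REIn.of_re ?_)
      exact RE.eq (cps.comp (g := fun x : ℕ × ℕ × ℕ => (x.1, x.2.2)) (by fun_prop)) (by fun_prop)
    refine h2.of_eq fun q => ?_
    constructor
    · rintro ⟨p, h3, h4⟩
      exact ⟨p.1, by rw [h3]; exact h4⟩
    · rintro ⟨n, hn⟩
      exact ⟨(n, e n), rfl, hn⟩
  have hD2 : REIn {m : ℕ | h m = 1} (· ∉ D) := by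
    have h2 : REIn {m : ℕ | h m = 1} fun q : ℕ => ∀ n < q.unpair.2 + 1,
        ∃ v, e n = v ∧ ps q v ≠ q.unpair.2 := by
      refine REIn.all_lt (S := fun (q : ℕ) n => ∃ v, e n = v ∧ ps q v ≠ q.unpair.2) ?_
        (by fun_prop)
      refine REIn.ex (S := fun (x : ℕ × ℕ) v => e x.2 = v ∧ ps x.1 v ≠ x.1.unpair.2) ?_
      refine REIn.and (hg.comp (f := fun x : (ℕ × ℕ) × ℕ => (x.1.2, x.2)) (by fun_prop))
        (REIn.of_re ?_)
      exact RE.ne (cps.comp (g := fun x : (ℕ × ℕ) × ℕ => (x.1.1, x.2)) (by fun_prop))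
        (by fun_prop)
    refine h2.of_eq fun q => ?_
    constructor
    · rintro h3 ⟨n, hn⟩
      have := hb q n
      obtain ⟨v, h4, h5⟩ := h3 n (by omega)
      rw [h4] at hn
      exact h5 hn
    · intro h3 n _
      exact ⟨e n, rfl, fun h4 => h3 ⟨n, h4⟩⟩
  have hred := turingReducible_iff.2 ⟨hD1, hD2⟩
  have e1 : (PFun.lift h : ℕ →. ℕ) = chi {m : ℕ | h m = 1} := by
    funext m
    show Part.some (h m) = Part.some (chiN _ m)
    congr 1
    by_cases hm : h m = 1
    · rw [chiN_eq_one.2 (show m ∈ {m : ℕ | h m = 1} from hm), hm]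
    · rw [chiN_eq_zero.2 (show m ∉ {m : ℕ | h m = 1} from hm)]
      have := h1 m
      omega
  refine ⟨chiN D, fun m => ?_, ?_, fun m => ?_, fun m => ?_, fun m => ?_⟩
  · by_cases hm : m ∈ D
    · rw [chiN_eq_one.2 hm]
    · rw [chiN_eq_zero.2 hm]; omega
  · rw [e1]; exact hred
  · rw [chiN_eq_one]
    show (∃ n, ps (Nat.pair 0 m) (e n) = (Nat.pair 0 m).unpair.2) ↔ _
    simp only [ps, Nat.unpair_pair]
    simp
  · rw [chiN_eq_one]
    show (∃ n, ps (Nat.pair 1 m) (e n) = (Nat.pair 1 m).unpair.2) ↔ _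
    simp only [ps, Nat.unpair_pair]
    simp
  · rw [chiN_eq_one]
    show (∃ n, ps (Nat.pair 2 m) (e n) = (Nat.pair 2 m).unpair.2) ↔ _
    simp only [ps, Nat.unpair_pair]
    simp

end Pool.Agent.Y599.IPT
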