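import Mathlib

/-!
The tree value of a list of positions: the value of a list is computed from the value of the part
before the last child of the root, the value of the last child, and a label.
-/

namespace Pool.Agent.Y599.IPT

variable {A : Type}

/-- The number `s` is bad at the gap `(a, b)`: the colour of some pair `r < s` changes. -/
def Bad (F : ℕ → ℕ → ℕ → ℕ) (s a b : ℕ) : Prop := ∃ r < s, F r s a ≠ F r s b

instance (F : ℕ → ℕ → ℕ → ℕ) (s a b : ℕ) : Decidable (Bad F s a b) := by
  unfold Bad; infer_instance

/-- The condition on a possible beginning of a child of the root. -/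
def Start (F : ℕ → ℕ → ℕ → ℕ) (w : List ℕ) (c : ℕ) : Prop :=
  c = 1 ∨ Bad F (w.getD 0 0) (w.getD (c - 1) 0) (w.getD c 0)

instance (F : ℕ → ℕ → ℕ → ℕ) (w : List ℕ) : DecidablePred (Start F w) := fun c => by
  unfold Start; infer_instance

/-- The beginning of the last child of the root. -/
def cut (F : ℕ → ℕ → ℕ → ℕ) (w : List ℕ) : ℕ := Nat.findGreatest (Start F w) (w.length - 1)

theorem cut_lt {F : ℕ → ℕ → ℕ → ℕ} {w : List ℕ} (h : 2 ≤ w.length) : cut F w < w.length := by
  have := Nat.findGreatest_le (P := Start F w) (w.length - 1)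
  unfold cut
  omega

theorem cut_pos {F : ℕ → ℕ → ℕ → ℕ} {w : List ℕ} (h : 2 ≤ w.length) : 1 ≤ cut F w := by
  unfold cut
  exact Nat.le_findGreatest (by omega) (Or.inl rfl)

/-- The tree value of a list. -/
def V (op : A → A → ℕ → A) (z : A) (F : ℕ → ℕ → ℕ → ℕ) (w : List ℕ) : A :=
  if h : 2 ≤ w.length then
    op (V op z F (w.take (cut F w))) (V op z F (w.drop (cut F w)))
      (F (w.getD (cut F w - 1) 0) (w.getD (cut F w) 0) (w.getLastD 0))
  else z
termination_by w.length
decreasing_by
  · have := cut_lt (F := F) h
    rw [List.length_take]; omega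
  · have := cut_pos (F := F) h
    rw [List.length_drop]; omega

theorem V_eq (op : A → A → ℕ → A) (z : A) (F : ℕ → ℕ → ℕ → ℕ) {w : List ℕ} (h : 2 ≤ w.length) :
    V op z F w = op (V op z F (w.take (cut F w))) (V op z F (w.drop (cut F w)))
      (F (w.getD (cut F w - 1) 0) (w.getD (cut F w) 0) (w.getLastD 0)) := by
  rw [V, dif_pos h]

/-- `y` begins a new child of the root of `x`. -/
def New (F : ℕ → ℕ → ℕ → ℕ) (x y : List ℕ) : Prop :=
  x.length = 1 ∨ Bad F (x.getD 0 0) (x.getLastD 0) (y.getD 0 0)

theorem getD_left {x y : List ℕ} {i : ℕ} (h : i < x.length) : (x ++ y).getD i 0 = x.getD i 0 := by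
  simp [List.getD_eq_getElem?_getD, List.getElem?_append_left h]

theorem getD_right {x y : List ℕ} {i : ℕ} (h : x.length ≤ i) :
    (x ++ y).getD i 0 = y.getD (i - x.length) 0 := by
  simp [List.getD_eq_getElem?_getD, List.getElem?_append_right h]

theorem getLastD_append {x y : List ℕ} (hy : y ≠ []) :
    (x ++ y).getLastD 0 = y.getLastD 0 := by
  rw [List.getLastD_eq_getLast?, List.getLastD_eq_getLast?, List.getLast?_append]
  rw [List.getLast?_eq_some_getLast hy]
  simp

theorem getLastD_eq_getD {x : List ℕ} : x.getLastD 0 = x.getD (x.length - 1) 0 := by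
  rw [List.getLastD_eq_getLast?, List.getLast?_eq_getElem?, List.getD_eq_getElem?_getD]

theorem getLastD_drop {x : List ℕ} {c : ℕ} (h : c < x.length) :
    (x.drop c).getLastD 0 = x.getLastD 0 := by
  rw [getLastD_eq_getD, getLastD_eq_getD]
  simp only [List.getD_eq_getElem?_getD, List.getElem?_drop, List.length_drop]
  congr 2
  omega

theorem getD_mem {x : List ℕ} {i : ℕ} (h : i < x.length) : x.getD i 0 ∈ x := by
  rw [List.getD_eq_getElem?_getD, List.getElem?_eq_getElem h]
  simp

theorem getD_drop {x : List ℕ} {c i : ℕ} : (x.drop c).getD i 0 = x.getD (c + i) 0 := by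
  simp [List.getD_eq_getElem?_getD, List.getElem?_drop]

/-- `F r s` is constant on the entries of `y`, for `s` in `x`. -/
def Sett (F : ℕ → ℕ → ℕ → ℕ) (x y : List ℕ) : Prop :=
  ∀ s ∈ x, ∀ r < s, ∀ a ∈ y, ∀ b ∈ y, F r s a = F r s b

theorem cut_new {F : ℕ → ℕ → ℕ → ℕ} {x y : List ℕ} (hx : x ≠ []) (hy : y ≠ [])
    (hs : Sett F x y) (hn : New F x y) : cut F (x ++ y) = x.length := by
  have lx : 0 < x.length := List.length_pos_of_ne_nil hx
  have ly : 0 < y.length := List.length_pos_of_ne_nil hy
  unfold cut
  rw [Nat.findGreatest_eq_iff]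
  refine ⟨by rw [List.length_append]; omega, fun _ => ?_, fun c hc hcl => ?_⟩
  · unfold Start
    rcases hn with h | h
    · exact Or.inl h
    · refine Or.inr ?_
      rw [getD_left lx, getD_left (by omega), getD_right (le_refl _), Nat.sub_self,
        ← getLastD_eq_getD]
      exact h
  · rw [List.length_append] at hcl
    unfold Start
    rintro (h | h)
    · omega
    · rw [getD_left lx, getD_right (by omega), getD_right (by omega)] at h
      obtain ⟨r, hr, h⟩ := h
      exact h (hs _ (getD_mem lx) r hr _ (getD_mem (by omega)) _ (getD_mem (by omega)))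

theorem start_left {F : ℕ → ℕ → ℕ → ℕ} {x y : List ℕ} {c : ℕ} (h0 : 0 < c) (h : c < x.length) :
    Start F (x ++ y) c ↔ Start F x c := by
  unfold Start
  rw [getD_left (by omega), getD_left (by omega), getD_left h]

theorem cut_old {F : ℕ → ℕ → ℕ → ℕ} {x y : List ℕ} (hx : x ≠ []) (hy : y ≠ [])
    (hs : Sett F x y) (hn : ¬ New F x y) : 2 ≤ x.length ∧ cut F (x ++ y) = cut F x := by
  have lx : 0 < x.length := List.length_pos_of_ne_nil hx
  have ly : 0 < y.length := List.length_pos_of_ne_nil hy
  unfold New at hn
  rw [not_or] at hn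
  have l2 : 2 ≤ x.length := by omega
  refine ⟨l2, ?_⟩
  have c1 := cut_lt (F := F) l2
  have c2 := cut_pos (F := F) l2
  have c3 : Start F x (cut F x) :=
    Nat.findGreatest_spec (P := Start F x) (m := 1) (by omega) (Or.inl rfl)
  have e : cut F (x ++ y) = Nat.findGreatest (Start F (x ++ y)) ((x ++ y).length - 1) := rfl
  rw [e, Nat.findGreatest_eq_iff]
  refine ⟨by rw [List.length_append]; omega, fun _ => (start_left c2 c1).2 c3,
    fun c hc hcl hst => ?_⟩
  rcases Nat.lt_trichotomy c x.length with h | h | h
  · have h1 := (start_left (F := F) (y := y) (by omega) h).1 hst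
    have h2 := Nat.le_findGreatest (P := Start F x) (n := x.length - 1) (by omega) h1
    have : cut F x = Nat.findGreatest (Start F x) (x.length - 1) := rfl
    omega
  · rcases hst with h1 | h1
    · omega
    · rw [getD_left lx, getD_left (by omega), getD_right (by omega), h, Nat.sub_self,
        ← getLastD_eq_getD] at h1
      exact hn.2 h1
  · rcases hst with h1 | h1
    · omega
    · rw [List.length_append] at hcl
      rw [getD_left lx, getD_right (by omega), getD_right (by omega)] at h1
      obtain ⟨r, hr, h1⟩ := h1
      exact h1 (hs _ (getD_mem lx) r hr _ (getD_mem (by omega)) _ (getD_mem (by omega)))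

theorem V_new (op : A → A → ℕ → A) (z : A) {F : ℕ → ℕ → ℕ → ℕ} {x y : List ℕ} (hx : x ≠ [])
    (hy : y ≠ []) (hs : Sett F x y) (hn : New F x y) :
    V op z F (x ++ y) = op (V op z F x) (V op z F y)
      (F (x.getLastD 0) (y.getD 0 0) (y.getLastD 0)) := by
  have lx : 0 < x.length := List.length_pos_of_ne_nil hx
  have ly : 0 < y.length := List.length_pos_of_ne_nil hy
  rw [V_eq op z F (by rw [List.length_append]; omega), cut_new hx hy hs hn, List.take_left,
    List.drop_left, getLastD_append hy, getD_left (by omega), getD_right (le_refl _),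
    Nat.sub_self, ← getLastD_eq_getD]

/-- The main lemma on the junction of two lists. -/
theorem junction (op : A → A → ℕ → A) (z : A) {F : ℕ → ℕ → ℕ → ℕ} {Good : A → ℕ → Prop} {k : ℕ}
    (hF : ∀ a b c, F a b c < k)
    (h1 : ∀ u v a, a < k → op u v a = u → Good v a)
    (h2 : ∀ u v v' a, op u v a = op u v' a → v = v')
    (h3 : ∀ u x v a l l', a < k → l < k → l' < k → op u (op x v a) l' = op u x l → Good v a)
    {y : List ℕ} (hy : y ≠ []) : ∀ (n : ℕ) (x : List ℕ), x.length ≤ n → x ≠ [] →
      x.Pairwise (· < ·) → Sett F x y →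
      V op z F (x ++ y) = V op z F x →
      Good (V op z F y) (F (x.getLastD 0) (y.getD 0 0) (y.getLastD 0)) := by
  intro n
  induction n with
  | zero =>
    intro x hl hx
    exact absurd (List.length_eq_zero_iff.1 (Nat.le_zero.1 hl)) hx
  | succ n ih =>
    intro x hl hx hp hs he
    have lx : 0 < x.length := List.length_pos_of_ne_nil hx
    have ly : 0 < y.length := List.length_pos_of_ne_nil hy
    by_cases hn : New F x y
    · rw [V_new op z hx hy hs hn] at he
      exact h1 _ _ _ (hF _ _ _) he
    · obtain ⟨l2, hc⟩ := cut_old hx hy hs hn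
      have c1 := cut_lt (F := F) l2
      have c2 := cut_pos (F := F) l2
      rw [V_eq op z F (w := x ++ y) (by rw [List.length_append]; omega), V_eq op z F l2, hc,
        List.take_append_of_le_length (by omega), List.drop_append_of_le_length (by omega),
        getLastD_append hy, getD_left (by omega), getD_left c1] at he
      have hx' : x.drop (cut F x) ≠ [] := by
        intro h
        have := congrArg List.length h
        rw [List.length_drop] at this
        simp at this
        omega
      have hs' : Sett F (x.drop (cut F x)) y := fun s h => hs s (List.mem_of_mem_drop h)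
      by_cases hn' : New F (x.drop (cut F x)) y
      · rw [V_new op z hx' hy hs' hn', getLastD_drop c1] at he
        exact h3 _ _ _ _ _ _ (hF _ _ _) (hF _ _ _) (hF _ _ _) he
      · have hlt : x.getD (cut F x - 1) 0 < x.getD (cut F x) 0 := by
          have := List.pairwise_iff_getElem.1 hp (cut F x - 1) (cut F x) (by omega) c1 (by omega)
          rw [List.getD_eq_getElem?_getD, List.getD_eq_getElem?_getD,
            List.getElem?_eq_getElem (by omega), List.getElem?_eq_getElem c1]
          simpa using this
        have hnb : F (x.getD (cut F x - 1) 0) (x.getD (cut F x) 0) (y.getLastD 0) =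
            F (x.getD (cut F x - 1) 0) (x.getD (cut F x) 0) (x.getLastD 0) := by
          unfold New at hn'
          rw [not_or] at hn'
          have h5 := hn'.2
          rw [getLastD_drop c1, getD_drop, add_zero] at h5
          have h6 : F (x.getD (cut F x - 1) 0) (x.getD (cut F x) 0) (x.getLastD 0) =
              F (x.getD (cut F x - 1) 0) (x.getD (cut F x) 0) (y.getD 0 0) := by
            by_contra hcon
            exact h5 ⟨_, hlt, hcon⟩
          rw [h6]
          refine hs _ (getD_mem c1) _ hlt _ ?_ _ (getD_mem ly)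
          rw [getLastD_eq_getD]
          exact getD_mem (by omega)
        rw [hnb] at he
        have h7 := h2 _ _ _ _ he
        have h8 := ih (x.drop (cut F x)) (by rw [List.length_drop]; omega) hx'
          (hp.sublist (List.drop_sublist _ _)) hs' h7
        rw [getLastD_drop c1] at h8
        exact h8

end Pool.Agent.Y599.IPT
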